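import Pool.Agent.X82.FC4

/-!
# Finite automata and a finite criterion for the Pisot substitution conjecture for compositions

Let `M` be a nonnegative unimodular irreducible Pisot matrix with frequency vector `w`, and let `𝓕_B`
be the set of all substitutions with incidence matrix `M ^ i` for some `i ≥ 1` for which all prefixes
of the images of the letters have discrepancy at most `B` (`Factor M w B`). Every finite set of
substitutions whose incidence matrices are powers of `M` is contained in `𝓕_B` for large `B`.

For every `B` there is a finite automaton (it depends only on `M` and `B`) which decides for a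
composition of any number of members of `𝓕_B` whether it satisfies the conclusion of the conjecture.
Its states are the relations between the overlapping pairs of edges of bounded distance; the proof
uses that the existence of the semi-conjugacy to a torus is equivalent to the coincidence of all
overlapping pairs (the hard direction is in `Pool.Agent.X82.PC6`). Consequences: every composition
has a sub-composition of bounded length which can replace it in all contexts; the conclusion holds
for all compositions of members of a subset of `𝓕_B` if it holds for those with at most `N` factors.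
-/

set_option autoImplicit false

namespace Pool.Agent.Results.MP_e732b0_an.FiniteCriterion

open Pool.Agent.H812R2.PI Pool.Agent.X82.FC

theorem result {m : ℕ} (M : Matrix (Fin (m+1)) (Fin (m+1)) ℤ)
    (hnn : ∀ i j, 0 ≤ M i j) (hM : PisotMat M) (lam : ℝ) (hlam : 1 < lam)
    (w : Fin (m+1) → ℝ) (hw : ∀ i, ∑ j, (M i j : ℝ) * w j = lam * w i)
    (hwsum : ∑ i, w i = 1) :
    (∀ F : Set (Fin (m+1) → List (Fin (m+1))), F.Finite →
      (∀ ρ ∈ F, ∃ i, 1 ≤ i ∧ inc ρ = M ^ i) → ∃ B, ∀ ρ ∈ F, Factor M w B ρ) ∧
    ∀ B : ℝ,
      (∀ l : List (Fin (m+1) → List (Fin (m+1))), l ≠ [] → (∀ ρ ∈ l, Factor M w B ρ) →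
        PisotMat (inc (compList l))) ∧
      ∃ K N : ℕ, 1 ≤ K ∧
        (∀ l : List (Fin (m+1) → List (Fin (m+1))), l ≠ [] → (∀ ρ ∈ l, Factor M w B ρ) →
          ∃ l', l' ≠ [] ∧ List.Sublist l' l ∧ l'.length ≤ N ∧
            ∀ u v : List (Fin (m+1) → List (Fin (m+1))), (∀ ρ ∈ u ++ v, Factor M w B ρ) →
              (SemiConjToral (compList (u ++ l ++ v)) ↔
                SemiConjToral (compList (u ++ l' ++ v)))) ∧
        (∀ F : Set (Fin (m+1) → List (Fin (m+1))), (∀ ρ ∈ F, Factor M w B ρ) →
          (∀ l : List (Fin (m+1) → List (Fin (m+1))), l ≠ [] → (∀ ρ ∈ l, ρ ∈ F) →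
            l.length ≤ N → SemiConjToral (compList l)) →
          ∀ l : List (Fin (m+1) → List (Fin (m+1))), l ≠ [] → (∀ ρ ∈ l, ρ ∈ F) →
            SemiConjToral (compList l)) ∧
        (∀ (ι : Type) (F : ι → (Fin (m+1) → List (Fin (m+1)))), (∀ i, Factor M w B (F i)) →
          (Sat F).IsRegular ∧ (Per F).IsRegular ∧
          ∀ x : List ι, x ∈ Sat F ↔ (List.replicate K x).flatten ∈ Per F) := by
  refine ⟨factor_finite M w, fun B => ?_⟩
  obtain ⟨h1, -, K, N, h2, -, h3, h4, h5⟩ := main M hnn hM lam hlam w hw hwsum B
  exact ⟨h1, K, N, h2, h3, h4, h5⟩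

end Pool.Agent.Results.MP_e732b0_an.FiniteCriterion
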