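import Pool.Agent.X82.PC2

/-!
# The conclusion of the Pisot substitution conjecture is absorbing; a zero-one law

Let `M` be a nonnegative unimodular irreducible Pisot matrix.

(1) If ONE substitution `τ` with incidence matrix `M ^ n` satisfies the conclusion of the conjecture,
then so does every composition, of any length, of substitutions with incidence matrices `M ^ i`,
`1 ≤ i ≤ T`, and of a block `τ ^ k` with `k ≥ K`; here `K` depends only on `M`, `n` and `T`.

(2) Zero-one law: for a finite set `F` of substitutions whose incidence matrices are powers of `M`,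
either no composition of members of `F` satisfies the conclusion of the conjecture, or all but
`C exp (- c k) |F| ^ k` of the compositions of `k` members do.

The proof contains the implication from the existence of the semi-conjugacy (to any torus) to the
coincidence of all overlapping pairs of edges, by a topological argument: return times, the fact that
the return vectors generate the whole lattice, one point with a unique preimage.

Built on the library `Pool/Agent/H812R2/PI` (helper812 and others), `Pool/Agent/TH100/Pisot`.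
-/

set_option autoImplicit false

namespace Pool.Agent.Results.MP_e732b0_an.PersistentCoincidence

open Pool.Agent.H812R2.PI

theorem result {m : ℕ} (M : Matrix (Fin (m+1)) (Fin (m+1)) ℤ)
    (hnn : ∀ i j, 0 ≤ M i j) (hM : PisotMat M) :
    (∀ n T : ℕ, 1 ≤ n → ∃ K : ℕ, ∀ τ : Fin (m+1) → List (Fin (m+1)),
      inc τ = M ^ n → SemiConjToral τ →
      ∀ k ≥ K, ∀ l₁ l₂ : List (Fin (m+1) → List (Fin (m+1))),
        (∀ ρ ∈ l₁ ++ l₂, ∃ i, 1 ≤ i ∧ i ≤ T ∧ inc ρ = M ^ i) →
        PisotMat (inc (compList (l₁ ++ List.replicate k τ ++ l₂))) ∧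
        SemiConjToral (compList (l₁ ++ List.replicate k τ ++ l₂))) ∧
    (∀ F : Finset (Fin (m+1) → List (Fin (m+1))), (∀ ρ ∈ F, ∃ i, 1 ≤ i ∧ inc ρ = M ^ i) →
      (∀ l : List (Fin (m+1) → List (Fin (m+1))), l ≠ [] → (∀ ρ ∈ l, ρ ∈ F) →
        ¬ SemiConjToral (compList l)) ∨
      ∃ C c : ℝ, 0 < c ∧ ∀ k : ℕ,
        ({f : Fin k → (Fin (m+1) → List (Fin (m+1))) | (∀ i, f i ∈ F) ∧
          ¬ SemiConjToral (compList (List.ofFn f))}.ncard : ℝ) ≤
        C * Real.exp (-(c * k)) * (F.card : ℝ) ^ k) :=
  ⟨fun n T hn => Pool.Agent.X82.PC.uniform M hnn hM n T hn,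
    fun F hF => Pool.Agent.X82.PC.zero_one M hnn hM F hF⟩

end Pool.Agent.Results.MP_e732b0_an.PersistentCoincidence
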