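import Pool.Agent.X82.FC6

/-!
# The Pisot substitution conjecture is stable under changes of a positive proportion of the edges

Let `M` be a nonnegative unimodular irreducible Pisot matrix with frequency vector `w`, and let `𝓕_B`
be the set of the substitutions with incidence matrix `M ^ i` for some `i ≥ 1` for which all prefixes
of the images of the letters have discrepancy at most `B` (`Factor M w B`).

Let `τ` be a composition of members of `𝓕_B` which satisfies the conclusion of the conjecture. Then
there are `k` and `c > 0` such that the following holds for every composition `S = σ₁ ∘ τ ^ k ∘ σ₂`,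
where `σ₁` and `σ₂` are compositions of any numbers of members of `𝓕_B`. Every substitution `S'` in
`𝓕_B` with the incidence matrix of `S`, such that for each letter `a` all but at most `c |S' a|` of
the edges of the broken line of `S a` are edges of the broken line of `S' a`, satisfies the conclusion
of the conjecture, and so does every composition of members of `𝓕_B` and `S'`.

The edges of the broken line of a word (`edges 0`) are the pairs of the vector of the numbers of the
letters in a proper prefix and the letter which follows it. Proof: in `S` the number of common edges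
of the images of any two overlapping edges of bounded distance is at least `2 c` times the length.
-/

set_option autoImplicit false

namespace Pool.Agent.Results.MP_e732b0_an.RobustSubstitutions

open Pool.Agent.H812R2.PI Pool.Agent.X82.FC

theorem result {m : ℕ} (M : Matrix (Fin (m+1)) (Fin (m+1)) ℤ)
    (hnn : ∀ i j, 0 ≤ M i j) (hM : PisotMat M) (lam : ℝ) (hlam : 1 < lam)
    (w : Fin (m+1) → ℝ) (hw : ∀ i, ∑ j, (M i j : ℝ) * w j = lam * w i)
    (hwsum : ∑ i, w i = 1) (B : ℝ)
    (l : List (Fin (m+1) → List (Fin (m+1)))) (hne : l ≠ []) (hl : ∀ ρ ∈ l, Factor M w B ρ)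
    (hs : SemiConjToral (compList l)) :
    ∃ (k : ℕ) (c : ℝ), 0 < c ∧ ∀ (u v : List (Fin (m+1) → List (Fin (m+1)))) (N : ℕ)
      (S' : Fin (m+1) → List (Fin (m+1))), (∀ ρ ∈ u ++ v, Factor M w B ρ) →
      inc (compList (u ++ (List.replicate k l).flatten ++ v)) = M ^ N →
      S' ∈ SubSet w (M ^ N) B →
      (∀ a, (((edges 0 (compList (u ++ (List.replicate k l).flatten ++ v) a)).toFinset \
        (edges 0 (S' a)).toFinset).card : ℝ) ≤ c * (S' a).length) →
      ∀ u' v' : List (Fin (m+1) → List (Fin (m+1))), (∀ ρ ∈ u' ++ v', Factor M w B ρ) →
        PisotMat (inc (compList (u' ++ [S'] ++ v'))) ∧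
        SemiConjToral (compList (u' ++ [S'] ++ v')) :=
  robust M hnn hM lam hlam w hw hwsum B l hne hl hs

end Pool.Agent.Results.MP_e732b0_an.RobustSubstitutions
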